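import Pool.Agent.Q296.TA.Plane

/-!
# The data for the construction: odd fields, and fields of characteristic two with at least eight
elements
-/

namespace Pool.Agent.Q296.TA

open Finset Function

/-- fields of odd characteristic: `l r s = 2 s - r` and `Y r s = s + r ^ 2 / 2` -/
def oddData (F : Type*) [Field F] (h2 : (2 : F) ≠ 0) : Data F where
  l r s := 2 * s - r
  Y r s := s + r ^ 2 / 2
  l_diag r := by ring
  l_row r a b h := by
    have h1 : 2 * (a - b) = 0 := by
      have : 2 * a - r = 2 * b - r := h
      linear_combination this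
    rcases mul_eq_zero.1 h1 with h | h
    · exact absurd h h2
    · exact sub_eq_zero.1 h
  l_col s a b h := by
    have : 2 * s - a = 2 * s - b := h
    linear_combination -this
  Y_inj r a b h := by
    have : a + r ^ 2 / 2 = b + r ^ 2 / 2 := h
    exact add_right_cancel this
  inv r s _ := by
    field_simp
    ring

/-- a map which is injective outside of `r` may be changed at `r` to become injective -/
lemma exists_extend {F : Type*} [Fintype F] [DecidableEq F] (f : F → F) (r : F)
    (h : ∀ s s', s ≠ r → s' ≠ r → f s = f s' → s = s') :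
    ∃ g : F → F, Injective g ∧ ∀ s, s ≠ r → g s = f s := by
  have h1 : ∃ y, y ∉ (univ.erase r).image f := by
    by_contra hc
    push Not at hc
    have h2 : (univ : Finset F) ⊆ (univ.erase r).image f := fun y _ => hc y
    have h3 := card_le_card h2
    have h4 := card_image_le (s := univ.erase r) (f := f)
    rw [card_erase_of_mem (mem_univ _)] at h4
    have h5 : 0 < (univ : Finset F).card := card_pos.2 ⟨r, mem_univ _⟩
    omega
  obtain ⟨y, hy⟩ := h1
  refine ⟨update f r y, ?_, fun s hs => update_of_ne hs _ _⟩
  intro s s' e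
  by_cases hs : s = r
  · by_cases hs' : s' = r
    · rw [hs, hs']
    · rw [hs, update_self, update_of_ne hs'] at e
      exact absurd (mem_image.2 ⟨s', mem_erase.2 ⟨hs', mem_univ _⟩, e.symm⟩) hy
  · by_cases hs' : s' = r
    · rw [hs', update_self, update_of_ne hs] at e
      exact absurd (mem_image.2 ⟨s, mem_erase.2 ⟨hs, mem_univ _⟩, e⟩) hy
    · rw [update_of_ne hs, update_of_ne hs'] at e
      exact h s s' hs hs' e

section even

variable {F : Type*} [Field F]

lemma sq_inj (h2 : (2 : F) = 0) {s t : F} (h : s ^ 2 = t ^ 2) : s = t := by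
  have : (s - t) ^ 2 = 0 := by linear_combination h + (t ^ 2 - s * t) * h2
  exact sub_eq_zero.1 (pow_eq_zero_iff two_ne_zero |>.1 this)

/-- the idempotent latin square -/
def el [DecidableEq F] (a r s : F) : F :=
  if s = 0 then r / a ^ 2 else if r = 0 then s / a else if r = a * s then 0 else s ^ 2 / r

/-- the function `Y` outside of the diagonal -/
def eY [DecidableEq F] (a β r s : F) : F :=
  if s = 0 then 0 else if r = 0 then (β * (a + a⁻¹) ^ 2 + 1) * s ^ 2
    else s * r + s ^ 2 + β * (r ^ 2 + s ^ 4 / r ^ 2)

variable [DecidableEq F] {a β : F}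

lemma el_diag (ha1 : a ≠ 1) (r : F) : el a r r = r := by
  unfold el
  by_cases h : r = 0
  · rw [if_pos h, h, zero_div]
  · rw [if_neg h, if_neg h, if_neg]
    · field_simp
    · intro h3
      apply ha1
      have : (a - 1) * r = 0 := by linear_combination -h3
      rcases mul_eq_zero.1 this with h4 | h4
      · exact sub_eq_zero.1 h4
      · exact absurd h4 h

lemma el_row (h2 : (2 : F) = 0) (ha : a ≠ 0) (r : F) : Injective (el a r) := by
  intro s t e
  unfold el at e
  by_cases hr : r = 0
  · subst hr
    by_cases hs : s = 0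
    · by_cases ht : t = 0
      · rw [hs, ht]
      · rw [if_pos hs, if_neg ht, if_pos rfl, zero_div] at e
        exact absurd e.symm (div_ne_zero ht ha)
    · by_cases ht : t = 0
      · rw [if_neg hs, if_pos rfl, if_pos ht, zero_div] at e
        exact absurd e (div_ne_zero hs ha)
      · rw [if_neg hs, if_pos rfl, if_neg ht, if_pos rfl] at e
        field_simp at e
        exact e
  · -- the value at zero differs from the others
    have key : ∀ t : F, t ≠ 0 →
        r / a ^ 2 ≠ (if r = 0 then t / a else if r = a * t then 0 else t ^ 2 / r) := by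
      intro t ht e
      rw [if_neg hr] at e
      split_ifs at e with h
      · exact (div_ne_zero hr (pow_ne_zero 2 ha)) e
      · apply h
        apply sq_inj h2
        field_simp at e
        linear_combination e
    by_cases hs : s = 0
    · by_cases ht : t = 0
      · rw [hs, ht]
      · rw [if_pos hs, if_neg ht] at e
        exact absurd e (key t ht)
    · by_cases ht : t = 0
      · rw [if_neg hs, if_pos ht] at e
        exact absurd e.symm (key s hs)
      · rw [if_neg hs, if_neg hr, if_neg ht, if_neg hr] at e
        split_ifs at e with h h' h'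
        · exact mul_left_cancel₀ ha (h.symm.trans h')
        · exact absurd e.symm (div_ne_zero (pow_ne_zero 2 ht) hr)
        · exact absurd e (div_ne_zero (pow_ne_zero 2 hs) hr)
        · apply sq_inj h2
          field_simp at e
          exact e

lemma el_col (ha : a ≠ 0) (s : F) : Injective fun r => el a r s := by
  intro r t e
  simp only [el] at e
  by_cases hs : s = 0
  · rw [if_pos hs, if_pos hs] at e
    field_simp at e
    exact e
  · rw [if_neg hs, if_neg hs] at e
    split_ifs at e with h h' h'' h3 h4 h5 h6 h7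
    · rw [h, h']
    · exact absurd e (div_ne_zero hs ha)
    · exfalso
      apply h''
      field_simp at e
      linear_combination e
    · exact absurd e.symm (div_ne_zero hs ha)
    · rw [h3, h5]
    · exact absurd e.symm (div_ne_zero (pow_ne_zero 2 hs) h4)
    · exfalso
      apply h3
      field_simp at e
      linear_combination -e
    · exact absurd e (div_ne_zero (pow_ne_zero 2 hs) h)
    · field_simp at e
      exact e.symm

lemma eY_zero (r : F) : eY a β r 0 = 0 := by simp [eY]

lemma eY_row_zero {s : F} (hs : s ≠ 0) : eY a β 0 s = (β * (a + a⁻¹) ^ 2 + 1) * s ^ 2 := by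
  simp [eY, hs]

lemma eY_of_ne {r s : F} (hr : r ≠ 0) (hs : s ≠ 0) :
    eY a β r s = s * r + s ^ 2 + β * (r ^ 2 + s ^ 4 / r ^ 2) := by
  simp [eY, hs, hr]

/-- the additive polynomial is injective -/
lemma key_inj (h2 : (2 : F) = 0) (hβ : ∀ w : F, w ^ 3 + w ^ 2 ≠ β) {r s t : F} (hr : r ≠ 0)
    (h : s * r + s ^ 2 + β * (r ^ 2 + s ^ 4 / r ^ 2) =
      t * r + t ^ 2 + β * (r ^ 2 + t ^ 4 / r ^ 2)) : s = t := by
  by_contra hst
  have hd : s - t ≠ 0 := sub_ne_zero.2 hst
  apply hβ (r / (s - t))
  -- multiply by `r ^ 2`
  have h1 : (s - t) * r ^ 3 + (s - t) ^ 2 * r ^ 2 + β * (s - t) ^ 4 = 0 := by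
    field_simp at h
    linear_combination h + (t ^ 2 * r ^ 2 - s * t * r ^ 2 +
      β * (-2 * s ^ 3 * t + 3 * s ^ 2 * t ^ 2 - 2 * s * t ^ 3 + t ^ 4)) * h2
  have h4 : r ^ 3 + (s - t) * r ^ 2 + β * (s - t) ^ 3 = 0 := by
    apply mul_left_cancel₀ hd
    linear_combination h1
  have h3 : β = -((r / (s - t)) ^ 3 + (r / (s - t)) ^ 2) := by
    field_simp
    linear_combination h4
  rw [h3]
  linear_combination ((r / (s - t)) ^ 3 + (r / (s - t)) ^ 2) * h2

lemma eY_inj (h2 : (2 : F) = 0) (hβ : ∀ w : F, w ^ 3 + w ^ 2 ≠ β)
    (hγ : β * (a + a⁻¹) ^ 2 + 1 ≠ 0) (r s t : F) (hs : s ≠ r) (ht : t ≠ r)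
    (h : eY a β r s = eY a β r t) : s = t := by
  by_cases hr : r = 0
  · subst hr
    rw [eY_row_zero hs, eY_row_zero ht] at h
    exact sq_inj h2 (mul_left_cancel₀ hγ h)
  · -- the value at `r` of the formula is zero
    have h0 : r * r + r ^ 2 + β * (r ^ 2 + r ^ 4 / r ^ 2) = 0 := by
      field_simp
      linear_combination (r ^ 2 + β * r ^ 2) * h2
    by_cases hs0 : s = 0
    · by_cases ht0 : t = 0
      · rw [hs0, ht0]
      · rw [hs0, eY_zero, eY_of_ne hr ht0] at h
        exact absurd (key_inj h2 hβ hr (h.symm.trans h0.symm)) ht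
    · by_cases ht0 : t = 0
      · rw [ht0, eY_zero, eY_of_ne hr hs0] at h
        exact absurd (key_inj h2 hβ hr (h.trans h0.symm)) hs
      · rw [eY_of_ne hr hs0, eY_of_ne hr ht0] at h
        exact key_inj h2 hβ hr h

lemma eY_inv (h2 : (2 : F) = 0) (ha : a ≠ 0) (r s : F) (hrs : r ≠ s) :
    eY a β (el a r s) s - s * el a r s = eY a β r s - s * r := by
  by_cases hs : s = 0
  · subst hs
    rw [eY_zero, eY_zero]
    ring
  · by_cases hr : r = 0
    · subst hr
      have h1 : el a 0 s = s / a := by simp [el, hs]
      rw [h1, eY_row_zero hs, eY_of_ne (div_ne_zero hs ha) hs]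
      field_simp
      ring_nf
      linear_combination (-(s * a ^ 2 * β)) * h2
    · by_cases hra : r = a * s
      · have h1 : el a r s = 0 := by
          unfold el
          rw [if_neg hs, if_neg hr, if_pos hra]
        rw [h1, eY_row_zero hs, eY_of_ne hr hs, hra]
        field_simp
        ring_nf
        linear_combination (β * a ^ 2 * s) * h2
      · have h1 : el a r s = s ^ 2 / r := by
          unfold el
          rw [if_neg hs, if_neg hr, if_neg hra]
        rw [h1, eY_of_ne (div_ne_zero (pow_ne_zero 2 hs) hr) hs, eY_of_ne hr hs]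
        field_simp
        ring

end even

end Pool.Agent.Q296.TA
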