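import Mathlib

/-!
# Triple arrays: definitions and transport
-/

namespace Pool.Agent.Q296.TA

open Finset

variable {R C S : Type*} [Fintype R] [Fintype C] [DecidableEq S]

/-- the set of the symbols which occur in the row `i` of the array `A` -/
def rowSet (A : R → C → S) (i : R) : Finset S := univ.image (A i)

/-- the set of the symbols which occur in the column `j` of the array `A` -/
def colSet (A : R → C → S) (j : C) : Finset S := univ.image fun i => A i j

/-- The array `A` with rows `R`, columns `C` and symbols `S` is a triple array: no symbol occurs twice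
in the same row or in the same column, every symbol occurs the same number of times, and any row and
any column, any two distinct rows, and any two distinct columns share a constant number of symbols. -/
structure IsTripleArray (A : R → C → S) : Prop where
  /-- no symbol occurs twice in a row -/
  row_inj : ∀ i, Function.Injective (A i)
  /-- no symbol occurs twice in a column -/
  col_inj : ∀ j, Function.Injective fun i => A i j
  /-- every symbol occurs the same number `e` of times -/
  equireplicate : ∃ e : ℕ, ∀ x, (univ.filter fun p : R × C => A p.1 p.2 = x).card = e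
  /-- any row and any column share the same number of symbols -/
  row_col : ∃ l : ℕ, ∀ i j, (rowSet A i ∩ colSet A j).card = l
  /-- any two distinct rows share the same number of symbols -/
  row_row : ∃ l : ℕ, ∀ i i', i ≠ i' → (rowSet A i ∩ rowSet A i').card = l
  /-- any two distinct columns share the same number of symbols -/
  col_col : ∃ l : ℕ, ∀ j j', j ≠ j' → (colSet A j ∩ colSet A j').card = l

variable {R' C' S' : Type*} [Fintype R'] [Fintype C'] [DecidableEq S']

lemma rowSet_transport (A : R → C → S) (eR : R' ≃ R) (eC : C' ≃ C) (eS : S ≃ S') (i : R') :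
    rowSet (fun i j => eS (A (eR i) (eC j))) i = (rowSet A (eR i)).map eS.toEmbedding := by
  ext x
  simp only [rowSet, mem_image, mem_univ, true_and, mem_map, Equiv.coe_toEmbedding]
  constructor
  · rintro ⟨j, rfl⟩
    exact ⟨_, ⟨eC j, rfl⟩, rfl⟩
  · rintro ⟨y, ⟨j, rfl⟩, rfl⟩
    exact ⟨eC.symm j, by simp⟩

lemma colSet_transport (A : R → C → S) (eR : R' ≃ R) (eC : C' ≃ C) (eS : S ≃ S') (j : C') :
    colSet (fun i j => eS (A (eR i) (eC j))) j = (colSet A (eC j)).map eS.toEmbedding := by
  ext x
  simp only [colSet, mem_image, mem_univ, true_and, mem_map, Equiv.coe_toEmbedding]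
  constructor
  · rintro ⟨i, rfl⟩
    exact ⟨_, ⟨eR i, rfl⟩, rfl⟩
  · rintro ⟨y, ⟨i, rfl⟩, rfl⟩
    exact ⟨eR.symm i, by simp⟩

/-- a triple array remains a triple array when rows, columns and symbols are renamed -/
theorem IsTripleArray.transport {A : R → C → S} (h : IsTripleArray A) (eR : R' ≃ R) (eC : C' ≃ C)
    (eS : S ≃ S') : IsTripleArray fun i j => eS (A (eR i) (eC j)) where
  row_inj i := eS.injective.comp ((h.row_inj _).comp eC.injective)
  col_inj j := by
    have := eS.injective.comp ((h.col_inj (eC j)).comp eR.injective)
    exact this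
  equireplicate := by
    obtain ⟨e, he⟩ := h.equireplicate
    refine ⟨e, fun x => ?_⟩
    rw [← he (eS.symm x)]
    refine card_bij (fun p _ => (eR p.1, eC p.2)) ?_ ?_ ?_
    · intro p hp
      simp only [mem_filter, mem_univ, true_and] at hp ⊢
      rw [← hp, eS.symm_apply_apply]
    · rintro ⟨a, b⟩ _ ⟨c, d⟩ _ h
      simp only [Prod.mk.injEq, EmbeddingLike.apply_eq_iff_eq] at h
      exact Prod.ext h.1 h.2
    · rintro ⟨a, b⟩ hp
      refine ⟨(eR.symm a, eC.symm b), ?_, by simp⟩
      simp only [mem_filter, mem_univ, true_and, Equiv.apply_symm_apply] at hp ⊢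
      rw [hp, eS.apply_symm_apply]
  row_col := by
    obtain ⟨l, hl⟩ := h.row_col
    refine ⟨l, fun i j => ?_⟩
    rw [rowSet_transport, colSet_transport, ← map_inter, card_map]
    exact hl _ _
  row_row := by
    obtain ⟨l, hl⟩ := h.row_row
    refine ⟨l, fun i j hij => ?_⟩
    rw [rowSet_transport, rowSet_transport, ← map_inter, card_map]
    exact hl _ _ (eR.injective.ne hij)
  col_col := by
    obtain ⟨l, hl⟩ := h.col_col
    refine ⟨l, fun i j hij => ?_⟩
    rw [colSet_transport, colSet_transport, ← map_inter, card_map]
    exact hl _ _ (eC.injective.ne hij)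

end Pool.Agent.Q296.TA
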