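import Pool.Agent.Q296.TA.Defs

/-!
# A triple array with 5 rows, 16 columns and 20 symbols
-/

namespace Pool.Agent.Q296.TA

open Finset

/-- the rows of the array -/
def tab : List (List ℕ) :=
  [[4, 5, 6, 16, 10, 14, 17, 9, 13, 12, 15, 18, 7, 8, 11, 19],
   [8, 16, 14, 11, 15, 17, 13, 12, 0, 1, 18, 3, 9, 19, 2, 10],
   [12, 13, 16, 15, 0, 1, 2, 17, 18, 7, 4, 14, 19, 6, 5, 3],
   [16, 9, 10, 7, 17, 11, 8, 3, 6, 18, 2, 5, 0, 1, 19, 4],
   [0, 1, 2, 3, 5, 4, 7, 6, 11, 10, 9, 8, 14, 15, 12, 13]]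

/-- the array -/
def arr (i : Fin 5) (j : Fin 16) : Fin 20 := Fin.ofNat 20 ((tab.getD i []).getD j 0)

theorem arr_tripleArray : IsTripleArray arr where
  row_inj := by
    have h : ∀ i a b, arr i a = arr i b → a = b := by decide +kernel
    exact h
  col_inj := by
    have h : ∀ j a b, arr a j = arr b j → a = b := by decide +kernel
    exact h
  equireplicate := ⟨4, by decide +kernel⟩
  row_col := ⟨4, by decide +kernel⟩
  row_row := ⟨12, by decide +kernel⟩
  col_col := ⟨1, by decide +kernel⟩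

end Pool.Agent.Q296.TA
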