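import Pool.Agent.Q296.TA.Cons
import Pool.Agent.Q296.TA.Four

/-!
# Triple arrays with `q + 1` rows, `q ^ 2` columns and `q (q + 1)` symbols for all prime powers `q > 2`
-/

namespace Pool.Agent.Q296.TA

open Finset Function Polynomial

section

variable {F : Type*} [Field F] [Fintype F]

lemma exists_beta (h2 : (2 : F) = 0) : ∃ β : F, ∀ w : F, w ^ 3 + w ^ 2 ≠ β := by
  by_contra h
  push Not at h
  have hs : Surjective fun w : F => w ^ 3 + w ^ 2 := h
  have hi := Finite.injective_iff_surjective.2 hs
  have h1 : (fun w : F => w ^ 3 + w ^ 2) 0 = (fun w : F => w ^ 3 + w ^ 2) 1 := by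
    simp only
    linear_combination -h2
  exact zero_ne_one (hi h1)

lemma exists_a (h8 : 8 ≤ Fintype.card F) {β : F} (hβ : β ≠ 0) :
    ∃ a : F, a ≠ 0 ∧ a ≠ 1 ∧ β * (a + a⁻¹) ^ 2 + 1 ≠ 0 := by
  classical
  let P : F[X] := C β * (X ^ 2 + 1) ^ 2 + X ^ 2
  have hP : P ≠ 0 := by
    intro h
    apply hβ
    have := congrArg (Polynomial.eval 0) h
    simpa [P] using this
  have hdeg : P.natDegree ≤ 4 := by
    simp only [P]
    compute_degree
  have hcard : (P.roots.toFinset ∪ {0, 1}).card < (univ : Finset F).card := by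
    calc (P.roots.toFinset ∪ {0, 1}).card ≤ P.roots.toFinset.card + ({0, 1} : Finset F).card :=
          card_union_le _ _
      _ ≤ 4 + 2 := by
          apply Nat.add_le_add
          · exact (Multiset.toFinset_card_le _).trans ((Polynomial.card_roots' P).trans hdeg)
          · exact card_le_two
      _ < 8 := by norm_num
      _ ≤ (univ : Finset F).card := h8
  obtain ⟨a, -, ha⟩ := exists_mem_notMem_of_card_lt_card hcard
  simp only [mem_union, Multiset.mem_toFinset, mem_insert, mem_singleton, not_or] at ha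
  refine ⟨a, ha.2.1, ha.2.2, fun h => ha.1 ?_⟩
  rw [Polynomial.mem_roots hP, Polynomial.IsRoot.def]
  have h0 : a ≠ 0 := ha.2.1
  simp only [P, eval_add, eval_mul, eval_C, eval_pow, eval_X, eval_one]
  field_simp at h
  linear_combination h

/-- fields of characteristic two with at least eight elements -/
theorem exists_evenData [DecidableEq F] (h2 : (2 : F) = 0) (h8 : 8 ≤ Fintype.card F) :
    Nonempty (Data F) := by
  obtain ⟨β, hβ⟩ := exists_beta h2
  have hβ0 : β ≠ 0 := by
    intro h
    apply hβ 0
    rw [h]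
    ring
  obtain ⟨a, ha0, ha1, hγ⟩ := exists_a h8 hβ0
  choose g hg1 hg2 using fun r => exists_extend (eY a β r) r (fun s t hs ht h =>
    eY_inj h2 hβ hγ r s t hs ht h)
  refine ⟨⟨el a, g, el_diag ha1, el_row h2 ha0, el_col ha0, hg1, ?_⟩⟩
  intro r s hrs
  have h1 : s ≠ el a r s := by
    intro e
    apply hrs
    apply el_col ha0 s
    show el a r s = el a s s
    rw [← e, el_diag ha1]
  rw [hg2 _ s h1, hg2 _ s hrs.symm]
  exact eY_inv h2 ha0 r s hrs

/-- a triple array on `Fin` from the data -/
theorem of_data [DecidableEq F] (D : Data F) {q : ℕ} (hq : Fintype.card F = q) :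
    ∃ A : Fin (q + 1) → Fin (q ^ 2) → Fin (q * (q + 1)), IsTripleArray A := by
  have e1 : Fintype.card (Option F) = q + 1 := by rw [Fintype.card_option, hq]
  have e2 : Fintype.card (F × F) = q ^ 2 := by rw [Fintype.card_prod, hq, sq]
  have e3 : Fintype.card (Option F × F) = q * (q + 1) := by
    rw [Fintype.card_prod, Fintype.card_option, hq, mul_comm]
  exact ⟨_, D.tripleArray.transport (Fintype.equivFinOfCardEq e1).symm
    (Fintype.equivFinOfCardEq e2).symm (Fintype.equivFinOfCardEq e3)⟩

end

/-- main theorem -/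
theorem main (q : ℕ) (hq : IsPrimePow q) (h2 : 2 < q) :
    ∃ A : Fin (q + 1) → Fin (q ^ 2) → Fin (q * (q + 1)), IsTripleArray A := by
  classical
  obtain ⟨p, k, hp, hk, rfl⟩ := hq
  have hpn : p.Prime := hp.nat_prime
  have : Fact p.Prime := ⟨hpn⟩
  have : Fintype (GaloisField p k) := Fintype.ofFinite _
  have hcard : Fintype.card (GaloisField p k) = p ^ k := by
    rw [← Nat.card_eq_fintype_card]
    exact GaloisField.card p k hk.ne'
  by_cases hp2 : p = 2
  · subst hp2
    have h20 : (2 : GaloisField 2 k) = 0 := by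
      have := CharP.cast_eq_zero (GaloisField 2 k) 2
      simpa using this
    rcases Nat.lt_or_ge k 3 with hk3 | hk3
    · interval_cases k
      · norm_num at h2
      · exact ⟨arr, arr_tripleArray⟩
    · have h8 : 8 ≤ Fintype.card (GaloisField 2 k) := by
        rw [hcard]
        calc 8 = 2 ^ 3 := by norm_num
          _ ≤ 2 ^ k := Nat.pow_le_pow_right (by norm_num) hk3
      obtain ⟨D⟩ := exists_evenData h20 h8
      exact of_data D hcard
  · have h20 : (2 : GaloisField p k) ≠ 0 := by
      intro h
      have h1 : ((2 : ℕ) : GaloisField p k) = 0 := by exact_mod_cast h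
      rw [CharP.cast_eq_zero_iff (GaloisField p k) p 2] at h1
      exact hp2 ((Nat.prime_dvd_prime_iff_eq hpn Nat.prime_two).1 h1)
    exact of_data (oddData _ h20) hcard

end Pool.Agent.Q296.TA
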