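import Pool.Agent.Q296.TA.Defs

/-!
# Triple arrays from the affine plane over a finite field

The columns are the points of the affine plane, the symbols are its lines, and the rows are the
parallel classes (`none`: vertical lines). The line in the cell `(r, P)` contains `P` and is not in the
class `r`.
-/

namespace Pool.Agent.Q296.TA

open Finset Function

variable {F : Type*} [Field F] [Fintype F] [DecidableEq F]

/-- the line of the class `s` through the point `P`: the line `x = P.1` if `s` is `none`, the line
`y = s x + c` if `s` is a slope; it is described by the class and the intercept -/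
def line : Option F → F × F → Option F × F
  | none, P => (none, P.1)
  | some s, P => (some s, P.2 - s * P.1)

omit [Fintype F] [DecidableEq F] in
@[simp] lemma line_fst (s : Option F) (P : F × F) : (line s P).1 = s := by
  cases s <;> rfl

omit [Fintype F] [DecidableEq F] in
lemma line_injective (P : F × F) : Injective fun s => line s P := fun a b h => by
  have := congrArg Prod.fst h
  simpa using this

/-- the lines of all classes but `r` -/
lemma card_ne (r : Option F) :
    (univ.filter fun L : Option F × F => L.1 ≠ r).card = Fintype.card F * Fintype.card F := by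
  have : (univ.filter fun L : Option F × F => L.1 ≠ r) = (univ.erase r) ×ˢ (univ : Finset F) := by
    ext L
    simp
  rw [this, card_product, card_erase_of_mem (mem_univ _), card_univ, card_univ,
    Fintype.card_option, Nat.add_sub_cancel]

variable {σ : Option F → F × F → Option F}

lemma rowSet_eq (hb : ∀ r P, σ r P ≠ r)
    (hc : ∀ r s c, s ≠ r → ∃ P, σ r P = s ∧ line s P = (s, c)) (r : Option F) :
    rowSet (fun r P => line (σ r P) P) r = univ.filter fun L : Option F × F => L.1 ≠ r := by
  ext L
  simp only [rowSet, mem_image, mem_univ, true_and, mem_filter]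
  constructor
  · rintro ⟨P, rfl⟩
    rw [line_fst]
    exact hb r P
  · intro h
    obtain ⟨P, hP, hL⟩ := hc r L.1 L.2 h
    exact ⟨P, by rw [hP, hL]⟩

lemma colSet_eq (ha : ∀ P, Injective fun r => σ r P) (P : F × F) :
    colSet (fun r P => line (σ r P) P) P = univ.image fun s => line s P := by
  have hs : Surjective fun r => σ r P := Finite.surjective_of_injective (ha P)
  ext L
  simp only [colSet, mem_image, mem_univ, true_and]
  constructor
  · rintro ⟨r, rfl⟩
    exact ⟨_, rfl⟩
  · rintro ⟨s, rfl⟩
    obtain ⟨r, hr⟩ := hs s
    exact ⟨r, by rw [← hr]⟩

omit [Fintype F] in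
/-- two distinct points are on exactly one line -/
lemma two_points {P Q : F × F} (h : P ≠ Q) : ∃ s, ∀ t, line t P = line t Q ↔ t = s := by
  by_cases hx : P.1 = Q.1
  · refine ⟨none, fun t => ?_⟩
    cases t with
    | none => simp [line, hx]
    | some t =>
      simp only [line, Prod.mk.injEq, true_and, reduceCtorEq, iff_false]
      intro h1
      apply h
      refine Prod.ext hx ?_
      rw [hx] at h1
      exact sub_left_injective h1
  · have hd : P.1 - Q.1 ≠ 0 := sub_ne_zero.2 hx
    refine ⟨some ((P.2 - Q.2) / (P.1 - Q.1)), fun t => ?_⟩
    cases t with
    | none => simp [line, hx]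
    | some t =>
      simp only [line, Prod.mk.injEq, true_and, Option.some.injEq]
      rw [eq_div_iff hd]
      constructor
      · intro h1
        linear_combination (-1 : F) * h1
      · intro h1
        linear_combination (-1 : F) * h1

/-- a function which assigns to a row and a point a class gives a triple array -/
theorem of_sigma (ha : ∀ P, Injective fun r => σ r P) (hb : ∀ r P, σ r P ≠ r)
    (hc : ∀ r s c, s ≠ r → ∃ P, σ r P = s ∧ line s P = (s, c)) :
    IsTripleArray fun r P => line (σ r P) P := by
  have hrow : ∀ r, Injective fun P => line (σ r P) P := by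
    intro r
    have h1 : (univ.image fun P => line (σ r P) P).card = (univ : Finset (F × F)).card := by
      have := rowSet_eq hb hc r
      rw [rowSet] at this
      rw [this, card_ne, card_univ, Fintype.card_prod]
    have h2 := card_image_iff.1 h1
    rw [coe_univ] at h2
    exact Set.injOn_univ.1 h2
  refine ⟨hrow, ?_, ⟨Fintype.card F, ?_⟩, ⟨Fintype.card F, ?_⟩,
    ⟨(Fintype.card F - 1) * Fintype.card F, ?_⟩, ⟨1, ?_⟩⟩
  · intro P r r' h
    apply ha P
    have := congrArg Prod.fst h
    simpa using this
  · intro L
    have h1 : ((univ.filter fun p : Option F × (F × F) => line (σ p.1 p.2) p.2 = L).image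
        Prod.fst) = univ.erase L.1 := by
      ext r
      simp only [mem_image, mem_filter, mem_univ, true_and, mem_erase, and_true]
      constructor
      · rintro ⟨p, rfl, rfl⟩
        rw [line_fst]
        exact (hb _ _).symm
      · intro h
        obtain ⟨P, hP, hL⟩ := hc r L.1 L.2 (Ne.symm h)
        exact ⟨(r, P), by rw [hP, hL], rfl⟩
    have h2 : Set.InjOn Prod.fst ((univ.filter fun p : Option F × (F × F) =>
        line (σ p.1 p.2) p.2 = L : Finset _) : Set (Option F × (F × F))) := by
      rintro ⟨r, P⟩ h ⟨r', P'⟩ h' e
      simp only [coe_filter, mem_univ, true_and, Set.mem_ofPred_eq] at h h' e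
      subst e
      exact Prod.ext rfl (hrow r (h.trans h'.symm))
    rw [← card_image_of_injOn h2, h1, card_erase_of_mem (mem_univ _), card_univ,
      Fintype.card_option, Nat.add_sub_cancel]
  · intro r P
    rw [rowSet_eq hb hc, colSet_eq ha]
    have : (univ.filter fun L : Option F × F => L.1 ≠ r) ∩ (univ.image fun s => line s P) =
        (univ.erase r).image fun s => line s P := by
      ext L
      simp only [mem_inter, mem_filter, mem_univ, true_and, mem_image, mem_erase, and_true]
      constructor
      · rintro ⟨h, s, rfl⟩
        rw [line_fst] at h
        exact ⟨s, h, rfl⟩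
      · rintro ⟨s, h, rfl⟩
        rw [line_fst]
        exact ⟨h, s, rfl⟩
    rw [this, card_image_of_injective _ (line_injective P), card_erase_of_mem (mem_univ _),
      card_univ, Fintype.card_option, Nat.add_sub_cancel]
  · intro r r' h
    rw [rowSet_eq hb hc, rowSet_eq hb hc]
    have : (univ.filter fun L : Option F × F => L.1 ≠ r) ∩
        (univ.filter fun L : Option F × F => L.1 ≠ r') =
          ((univ.erase r).erase r') ×ˢ (univ : Finset F) := by
      ext L
      simp only [mem_inter, mem_filter, mem_univ, true_and, mem_product, mem_erase, and_true]
      tauto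
    rw [this, card_product, card_erase_of_mem (by simp [h.symm]),
      card_erase_of_mem (mem_univ _), card_univ, card_univ, Fintype.card_option,
      Nat.add_sub_cancel]
  · intro P Q h
    rw [colSet_eq ha, colSet_eq ha]
    obtain ⟨s, hs⟩ := two_points h
    have : (univ.image fun t => line t P) ∩ (univ.image fun t => line t Q) = {line s P} := by
      ext L
      simp only [mem_inter, mem_image, mem_univ, true_and, mem_singleton]
      constructor
      · rintro ⟨⟨t, rfl⟩, u, h2⟩
        have e : u = t := by
          have := congrArg Prod.fst h2
          simpa using this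
        subst e
        rw [(hs u).1 h2.symm]
      · rintro rfl
        exact ⟨⟨s, rfl⟩, s, ((hs s).2 rfl).symm⟩
    rw [this, card_singleton]

/-- The data for the construction: an idempotent latin square `l` on `F` and bijections `Y r`. -/
structure Data (F : Type*) [Field F] where
  l : F → F → F
  Y : F → F → F
  l_diag : ∀ r, l r r = r
  l_row : ∀ r, Injective (l r)
  l_col : ∀ s, Injective fun r => l r s
  Y_inj : ∀ r, Injective (Y r)
  inv : ∀ r s, r ≠ s → Y (l r s) s - s * l r s = Y r s - s * r

namespace Data

variable (D : Data F)

/-- the inverse of `l r` -/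
noncomputable def li (r u : F) : F := (Equiv.ofBijective _
  (Finite.injective_iff_bijective.1 (D.l_row r))).symm u

/-- the inverse of `Y r` -/
noncomputable def Yi (r u : F) : F := (Equiv.ofBijective _
  (Finite.injective_iff_bijective.1 (D.Y_inj r))).symm u

omit [DecidableEq F] in
lemma l_li (r u : F) : D.l r (D.li r u) = u :=
  (Equiv.ofBijective _ (Finite.injective_iff_bijective.1 (D.l_row r))).apply_symm_apply u

omit [DecidableEq F] in
lemma li_l (r s : F) : D.li r (D.l r s) = s :=
  (Equiv.ofBijective _ (Finite.injective_iff_bijective.1 (D.l_row r))).symm_apply_apply s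

omit [DecidableEq F] in
lemma Y_Yi (r u : F) : D.Y r (D.Yi r u) = u :=
  (Equiv.ofBijective _ (Finite.injective_iff_bijective.1 (D.Y_inj r))).apply_symm_apply u

omit [DecidableEq F] in
lemma Yi_Y (r s : F) : D.Yi r (D.Y r s) = s :=
  (Equiv.ofBijective _ (Finite.injective_iff_bijective.1 (D.Y_inj r))).symm_apply_apply s

omit [DecidableEq F] in
lemma li_diag (r : F) : D.li r r = r := by
  have := D.li_l r r
  rwa [D.l_diag] at this

/-- the class of the line in the row `r` and the column `P` -/
noncomputable def sig : Option F → F × F → Option F
  | none, P => some P.1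
  | some r, P =>
    if P.2 = D.Y P.1 (D.li r P.1) then none
    else if P.1 = r then some (D.Yi r P.2) else some (D.li r P.1)

omit [DecidableEq F] in
lemma li_col {r r' x : F} (h : D.li r x = D.li r' x) : r = r' := by
  apply D.l_col (D.li r x)
  show D.l r (D.li r x) = D.l r' (D.li r x)
  rw [D.l_li, h, D.l_li]

lemma li_ne {r x : F} (h : x ≠ r) : D.li r x ≠ x := by
  intro e
  apply h
  have h1 := D.l_li r x
  rw [e] at h1
  exact D.l_col x ((D.l_diag x).trans h1.symm)

lemma sig_inj (P : F × F) : Injective fun r => D.sig r P := by
  obtain ⟨x, y⟩ := P
  -- the class in a finite row is not `some x`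
  have hx : ∀ r : F, D.sig (some r) (x, y) ≠ some x := by
    intro r
    simp only [sig]
    split_ifs with h1 h2
    · simp
    · intro e
      rw [Option.some.injEq] at e
      subst h2
      apply h1
      rw [D.li_diag]
      have := D.Y_Yi x y
      rw [e] at this
      exact this.symm
    · intro e
      rw [Option.some.injEq] at e
      exact D.li_ne h2 e
  intro a b h
  cases a with
  | none =>
    cases b with
    | none => rfl
    | some r => exact absurd h.symm (hx r)
  | some r =>
    cases b with
    | none => exact absurd h (hx r)
    | some r' =>
      congr 1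
      simp only [sig] at h
      split_ifs at h with h1 h2 h3 h4 h5 h6 h7 h8
      · exact D.li_col (D.Y_inj x (h1.symm.trans h2))
      · exact h4.symm.trans h6
      · rw [Option.some.injEq] at h
        exfalso
        subst h4
        apply h5
        rw [← h, D.Y_Yi]
      · rw [Option.some.injEq] at h
        exfalso
        subst h8
        apply h1
        rw [h, D.Y_Yi]
      · rw [Option.some.injEq] at h
        exact D.li_col h

lemma sig_ne (r : Option F) (P : F × F) : D.sig r P ≠ r := by
  cases r with
  | none => simp [sig]
  | some r =>
    simp only [sig]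
    split_ifs with h1 h2
    · simp
    · intro e
      rw [Option.some.injEq] at e
      apply h1
      rw [h2, D.li_diag]
      have := D.Y_Yi r P.2
      rw [e] at this
      exact this.symm
    · intro e
      rw [Option.some.injEq] at e
      apply h2
      have := D.l_li r P.1
      rw [e, D.l_diag] at this
      exact this.symm

lemma sig_surj (r s : Option F) (c : F) (h : s ≠ r) :
    ∃ P, D.sig r P = s ∧ line s P = (s, c) := by
  cases r with
  | none =>
    cases s with
    | none => exact absurd rfl h
    | some s => exact ⟨(s, c + s * s), rfl, by simp [line]⟩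
  | some r =>
    cases s with
    | none => exact ⟨(c, D.Y c (D.li r c)), by simp [sig], rfl⟩
    | some s =>
      have hs : s ≠ r := fun e => h (by rw [e])
      have hu : D.l r s ≠ r := fun e => hs (D.l_row r (e.trans (D.l_diag r).symm))
      by_cases hc : c = D.Y r s - s * r
      · refine ⟨(r, D.Y r s), ?_, ?_⟩
        · have h1 : ¬ D.Y r s = D.Y r (D.li r r) := by
            rw [D.li_diag]
            exact fun e => hs (D.Y_inj r e)
          simp only [sig, if_neg h1, if_true, D.Yi_Y]
        · rw [hc]
          rfl
      · refine ⟨(D.l r s, s * D.l r s + c), ?_, ?_⟩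
        · have h1 : ¬ s * D.l r s + c = D.Y (D.l r s) (D.li r (D.l r s)) := by
            rw [D.li_l]
            intro e
            apply hc
            have := D.inv r s hs.symm
            linear_combination e + this
          simp only [sig]
          rw [if_neg h1, if_neg hu, D.li_l]
        · simp [line]

/-- the data give a triple array -/
theorem tripleArray : IsTripleArray fun r P => line (D.sig r P) P :=
  of_sigma D.sig_inj D.sig_ne D.sig_surj

end Data

end Pool.Agent.Q296.TA
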